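import Pool.Agent.H171R2.Tri.Main

/-!
# Every triangle-free hexagonal graph has a stable set containing `4/9` of its vertices
-/

namespace Pool.Agent.Results.MP_45c1aa_co.AlphaFourNinths

open Pool.Agent.H171R2.Tri

/-- Every finite set `V` of points of the triangular lattice inducing a triangle-free graph contains
a stable set `S` with `9 |S| ≥ 4 |V|`. -/
theorem result (V : Finset (ℤ × ℤ))
    (hV : (triLattice.induce (V : Set (ℤ × ℤ))).CliqueFree 3) :
    ∃ S ⊆ V, triLattice.IsIndepSet (S : Set (ℤ × ℤ)) ∧ 4 * V.card ≤ 9 * S.card := by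
  obtain ⟨S, hS, hst, hle⟩ := t7b oct_main V (triFree_of_cliqueFree V hV)
  exact ⟨S, hS, indep_of_stable hst, hle⟩

end Pool.Agent.Results.MP_45c1aa_co.AlphaFourNinths
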